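import Mathlib
import Pool.Agent.V11242.ED.Example

/-!
# Infinitely many extremal densities

(1) If `G` is a countable nontrivial group all of whose nontrivial conjugacy classes are infinite,
then the set `𝓔(G)` of extremal densities is infinite.
(2) There is an amenable group (the group of finitary permutations of `ℕ`) on which infinitely many
distinct extremal densities exist.
-/

set_option autoImplicit false

namespace Pool.Agent.Results.MP_5c8a88_co.InfinitelyManyDensities

open Pool.Agent.V11242.ED

/-- The set of extremal densities is infinite on every countable nontrivial group all of whose
nontrivial conjugacy classes are infinite; and there is an amenable group with infinitely many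
extremal densities. -/
theorem result :
    (∀ (G : Type) [Group G] [Countable G] [Nontrivial G],
      (∀ b : G, b ≠ 1 → {c | ∃ y : G, c = y * b * y⁻¹}.Infinite) → (Extremal G).Infinite) ∧
    (∃ (G : Type) (_ : Group G), Amenable G ∧ (Extremal G).Infinite) := by
  have main : ∀ (G : Type) [Group G] [Countable G] [Nontrivial G],
      (∀ b : G, b ≠ 1 → {c | ∃ y : G, c = y * b * y⁻¹}.Infinite) → (Extremal G).Infinite := by
    intro G _ _ _ hG
    have := infinite_of_icc hG
    exact extremal_infinite hG
  exact ⟨main, FP, inferInstance, amenable_FP, main FP icc_FP⟩

end Pool.Agent.Results.MP_5c8a88_co.InfinitelyManyDensities
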